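import Pool.Agent.Y217.PB.Stm

/-! Job PB-R2 of project PB: `JInjT`. -/

set_option autoImplicit false

namespace Pool.Agent.Y563.PB

open Set Topology Metric
open scoped InnerProductSpace

section abs

variable {M : Type*} [TopologicalSpace M] [CompactSpace M] [T2Space M]
variable {E : Type*} [NormedAddCommGroup E] [InnerProductSpace ℝ E]

/-- the piece of the slice near `y` without `y` is preconnected -/
theorem star_conn {F : Set E} (hF : Convex ℝ F) {y w : E} (hy : y ∈ F) (hw : w ≠ 0)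
    {e : ℝ} (he : 0 < e) (hye : y + e • w ∈ F) {ρ : ℝ} (hρ : 0 < ρ) :
    IsPreconnected (({z | z ∈ F ∧ ⟪w, y⟫_ℝ ≤ ⟪w, z⟫_ℝ} ∩ ball y ρ) \ {y}) := by
  have hwp : 0 < ‖w‖ := norm_pos_iff.mpr hw
  obtain ⟨d, hd0, hde, hdρ⟩ : ∃ d : ℝ, 0 < d ∧ d ≤ e ∧ d * ‖w‖ < ρ := by
    refine ⟨min e (ρ / (2 * ‖w‖)), lt_min he (by positivity), min_le_left _ _, ?_⟩
    calc min e (ρ / (2 * ‖w‖)) * ‖w‖ ≤ (ρ / (2 * ‖w‖)) * ‖w‖ :=
          mul_le_mul_of_nonneg_right (min_le_right _ _) hwp.le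
      _ = ρ / 2 := by field_simp
      _ < ρ := by linarith
  have hww : 0 < ⟪w, w⟫_ℝ := by
    rw [real_inner_self_eq_norm_sq]; positivity
  have hz1F : y + d • w ∈ F := by
    have h1 := hF hy hye (a := 1 - d / e) (b := d / e)
      (by rw [sub_nonneg, div_le_one he]; exact hde) (by positivity) (by ring)
    have h2 : (1 - d / e) • y + (d / e) • (y + e • w) = y + d • w := by
      rw [smul_add, smul_smul, sub_smul, one_smul, div_mul_cancel₀ _ he.ne']
      abel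
    rwa [h2] at h1
  have hz1w : ⟪w, y + d • w⟫_ℝ = ⟪w, y⟫_ℝ + d * ⟪w, w⟫_ℝ := by
    rw [inner_add_right, inner_smul_right]
  have hz1 : y + d • w ∈ ({z | z ∈ F ∧ ⟪w, y⟫_ℝ ≤ ⟪w, z⟫_ℝ} ∩ ball y ρ) \ {y} := by
    refine ⟨⟨⟨hz1F, ?_⟩, ?_⟩, ?_⟩
    · rw [hz1w]; nlinarith
    · rw [mem_ball, dist_eq_norm, add_sub_cancel_left, norm_smul, Real.norm_eq_abs, abs_of_pos hd0]
      exact hdρ
    · intro h
      have h : y + d • w = y := h
      have h3 : ⟪w, y + d • w⟫_ℝ = ⟪w, y⟫_ℝ := by rw [h]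
      rw [hz1w] at h3
      nlinarith
  have hstar : StarConvex ℝ (y + d • w)
      (({z | z ∈ F ∧ ⟪w, y⟫_ℝ ≤ ⟪w, z⟫_ℝ} ∩ ball y ρ) \ {y}) := ?_
  · exact (hstar.isPathConnected hz1).isConnected.isPreconnected
  intro z hz a b ha hb hab
  have hsum : ⟪w, a • (y + d • w) + b • z⟫_ℝ = a * (⟪w, y⟫_ℝ + d * ⟪w, w⟫_ℝ) + b * ⟪w, z⟫_ℝ := by
    rw [inner_add_right, inner_smul_right, inner_smul_right, hz1w]
  have hb' : b = 1 - a := by linarith
  refine ⟨⟨⟨hF hz1F hz.1.1.1 ha hb hab, ?_⟩, ?_⟩, ?_⟩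
  · rw [hsum]
    have h4 := hz.1.1.2
    have h5 := mul_le_mul_of_nonneg_left h4 hb
    have h6 : 0 ≤ a * (d * ⟪w, w⟫_ℝ) := by positivity
    subst hb'
    nlinarith
  · exact convex_ball y ρ hz1.1.2 hz.1.2 ha hb hab
  · intro h
    have h : a • (y + d • w) + b • z = y := h
    rcases ha.eq_or_lt with h0 | h0
    · rw [← h0, zero_smul, zero_add, hb', ← h0, sub_zero, one_smul] at h
      exact hz.2 h
    · have h3 : ⟪w, a • (y + d • w) + b • z⟫_ℝ = ⟪w, y⟫_ℝ := by rw [h]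
      rw [hsum] at h3
      have h4 := hz.1.1.2
      have h5 := mul_le_mul_of_nonneg_left h4 hb
      have h6 : 0 < a * (d * ⟪w, w⟫_ℝ) := by positivity
      subst hb'
      nlinarith

omit [CompactSpace M] [T2Space M] [InnerProductSpace ℝ E] in
/-- one of the two sides -/
theorem side {f : M → E} (hf : Continuous f) {A O O' : Set M} (hA : IsPreconnected A)
    (hO : IsOpen O) (hO' : IsOpen O') (hd : Disjoint O O') {y : E} {ρ : ℝ} (hρ : 0 < ρ)
    (hcov : ∀ x ∈ A, f x ∈ closedBall y (ρ / 2) → x ∈ O ∨ x ∈ O')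
    {x0 y0 : M} (hx0 : x0 ∈ A) (hx0O : x0 ∈ O) (hy0 : y0 ∈ A) (hy0O : y0 ∈ O') (hy0y : f y0 = y)
    (hR : ∀ x ∈ A, x ∈ O' → f x ∈ ball y ρ → f x = y) : False := by
  have hu : IsOpen (O' ∩ f ⁻¹' (ball y ρ)) := hO'.inter (isOpen_ball.preimage hf)
  have hv : IsOpen ((f ⁻¹' (closedBall y (ρ / 2)))ᶜ ∪ O) :=
    ((isClosed_closedBall.preimage hf).isOpen_compl).union hO
  obtain ⟨x, hxA, ⟨hx1, hx2⟩, hx3⟩ := hA _ _ hu hv (by
    intro x hx
    by_cases h1 : f x ∈ closedBall y (ρ / 2)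
    · rcases hcov x hx h1 with h2 | h2
      · exact Or.inr (Or.inr h2)
      · refine Or.inl ⟨h2, ?_⟩
        have h3 : f x ∈ closedBall y (ρ / 2) := h1
        rw [mem_closedBall] at h3
        show f x ∈ ball y ρ
        rw [mem_ball]
        linarith
    · exact Or.inr (Or.inl h1)) ⟨y0, hy0, hy0O, by
      show f y0 ∈ ball y ρ
      rw [hy0y]; exact mem_ball_self hρ⟩ ⟨x0, hx0, Or.inr hx0O⟩
  have h4 := hR x hxA hx1 hx2
  rcases hx3 with h5 | h5
  · apply h5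
    show f x ∈ closedBall y (ρ / 2)
    rw [h4]
    exact mem_closedBall_self (by positivity)
  · exact Set.disjoint_left.mp hd h5 hx1

/-- injectivity over a compact convex set with connected half-space sections -/
theorem inj_over {f : M → E} (hf : Continuous f) (hl : ∀ x, ∃ U ∈ 𝓝 x, InjOn f U)
    {F : Set E} (hFc : IsClosed F) (hF : Convex ℝ F) (hr : F ⊆ range f)
    (hc : ∀ (w : E) (b : ℝ), IsPreconnected {x | f x ∈ F ∧ b ≤ ⟪w, f x⟫_ℝ}) {p : E}
    (hp : ∀ x y : M, x ≠ y → f x = f y → f x ∈ F →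
      f x ≠ p ∧ ∃ e : ℝ, 0 < e ∧ f x + e • (f x - p) ∈ F) :
    InjOn f {x | f x ∈ F} := by
  by_contra hcon
  choose U hU hUi using hl
  have hO : IsOpen (⋃ y, (interior (U y)) ×ˢ (interior (U y))) :=
    isOpen_iUnion fun y => isOpen_interior.prod isOpen_interior
  have hAc : IsClosed {x | f x ∈ F} := hFc.preimage hf
  have hE : IsCompact ((({x | f x ∈ F} ×ˢ {x | f x ∈ F}) ∩ {p : M × M | f p.1 = f p.2}) \
      (⋃ y, (interior (U y)) ×ˢ (interior (U y)))) :=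
    ((hAc.isCompact.prod hAc.isCompact).inter_right
      (isClosed_eq (hf.comp continuous_fst) (hf.comp continuous_snd))).diff hO
  have hEm : ∀ p : M × M, f p.1 ∈ F → f p.1 = f p.2 → p.1 ≠ p.2 →
      p ∈ ((({x | f x ∈ F} ×ˢ {x | f x ∈ F}) ∩ {p : M × M | f p.1 = f p.2}) \
      (⋃ y, (interior (U y)) ×ˢ (interior (U y)))) := by
    intro p h1 h3 h4
    refine ⟨⟨⟨h1, ?_⟩, h3⟩, ?_⟩
    · show f p.2 ∈ F
      rw [← h3]; exact h1
    intro h5
    simp only [mem_iUnion, mem_prod] at h5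
    obtain ⟨y, h5, h6⟩ := h5
    exact h4 (hUi y (interior_subset h5) (interior_subset h6) h3)
  have hne : ((({x | f x ∈ F} ×ˢ {x | f x ∈ F}) ∩ {p : M × M | f p.1 = f p.2}) \
      (⋃ y, (interior (U y)) ×ˢ (interior (U y)))).Nonempty := by
    unfold InjOn at hcon
    push Not at hcon
    obtain ⟨a, ha, b, hb, hab, hne⟩ := hcon
    exact ⟨(a, b), hEm (a, b) ha hab hne⟩
  obtain ⟨⟨x0, y0⟩, hpp, hmax⟩ := hE.exists_isMaxOn hne
    (f := fun q : M × M => ‖f q.1 - p‖) (by fun_prop)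
  obtain ⟨⟨⟨hx, hx'⟩, hgg⟩, hno⟩ := hpp
  have hx : f x0 ∈ F := hx
  have hgg : f x0 = f y0 := hgg
  have hxx : x0 ≠ y0 := by
    rintro rfl
    apply hno
    simp only [mem_iUnion, mem_prod]
    exact ⟨x0, mem_interior_iff_mem_nhds.mpr (hU x0), mem_interior_iff_mem_nhds.mpr (hU x0)⟩
  obtain ⟨hyp, e, he, hye⟩ := hp x0 y0 hxx hgg hx
  set y := f x0 with hy
  have huniq : ∀ a b : M, f a = f b → f a ∈ F → ‖y - p‖ < ‖f a - p‖ → a = b := by
    intro a b hab haF hlt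
    by_contra hne
    have h1 : ‖f a - p‖ ≤ ‖f x0 - p‖ := hmax (hEm (a, b) haF hab hne)
    linarith
  have hw : y - p ≠ 0 := sub_ne_zero.mpr hyp
  have huniq2 : ∀ a b : M, f a = f b → f a ∈ F → ⟪y - p, y⟫_ℝ ≤ ⟪y - p, f a⟫_ℝ → f a ≠ y →
      a = b := by
    intro a b hab haF hin hne
    refine huniq a b hab haF ?_
    have h1 : f a - p = (f a - y) + (y - p) := by abel
    have h2 : ‖f a - p‖ ^ 2 = ‖f a - y‖ ^ 2 + 2 * ⟪f a - y, y - p⟫_ℝ + ‖y - p‖ ^ 2 := by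
      rw [h1, norm_add_sq_real]
    have h3 : 0 ≤ ⟪f a - y, y - p⟫_ℝ := by
      rw [real_inner_comm, inner_sub_right]; linarith
    have h4 : 0 < ‖f a - y‖ := norm_pos_iff.mpr (sub_ne_zero.mpr hne)
    have h5 : ‖y - p‖ ^ 2 < ‖f a - p‖ ^ 2 := by nlinarith
    exact lt_of_pow_lt_pow_left₀ 2 (norm_nonneg _) h5
  -- the two parts of the fibre
  have hΦ : IsCompact ((f ⁻¹' {y}) \ interior (U x0)) :=
    ((isClosed_singleton.preimage hf).isCompact).diff isOpen_interior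
  have hdis : Disjoint ({x0} : Set M) ((f ⁻¹' {y}) \ interior (U x0)) := by
    rw [Set.disjoint_singleton_left]
    exact fun h => h.2 (mem_interior_iff_mem_nhds.mpr (hU x0))
  obtain ⟨O, O', hO1, hO2, hxO, hLO, hOO⟩ :=
    SeparatedNhds.of_isCompact_isCompact isCompact_singleton hΦ hdis
  have hxO' : x0 ∈ O := hxO (mem_singleton x0)
  have hyO' : y0 ∈ O' := by
    apply hLO
    refine ⟨hgg.symm, fun h => hxx ?_⟩
    exact hUi x0 (mem_of_mem_nhds (hU x0)) (interior_subset h) hgg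
  have hfib : ∀ x, f x = y → x ∈ O ∨ x ∈ O' := by
    intro x hx
    by_cases h : x ∈ interior (U x0)
    · left
      have : x0 = x := hUi x0 (mem_of_mem_nhds (hU x0)) (interior_subset h) hx.symm
      rw [← this]; exact hxO'
    · exact Or.inr (hLO ⟨hx, h⟩)
  set A : Set M := {x | f x ∈ F ∧ ⟪y - p, y⟫_ℝ ≤ ⟪y - p, f x⟫_ℝ} with hA
  have hAcl : IsClosed A :=
    hAc.inter (isClosed_le (f := fun _ : M => ⟪y - p, y⟫_ℝ) (g := fun x : M => ⟪y - p, f x⟫_ℝ)
      continuous_const (continuous_const.inner hf))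
  have hApre : IsPreconnected A := hc _ _
  obtain ⟨ρ, hρ, hcov⟩ : ∃ ρ > 0, ∀ x ∈ A, f x ∈ closedBall y ρ → x ∈ O ∨ x ∈ O' := by
    have hK : IsCompact (A \ (O ∪ O')) := hAcl.isCompact.diff (hO1.union hO2)
    rcases (A \ (O ∪ O')).eq_empty_or_nonempty with h0 | h0
    · refine ⟨1, one_pos, fun x hx _ => ?_⟩
      by_contra h
      have : x ∈ A \ (O ∪ O') := ⟨hx, h⟩
      rw [h0] at this
      exact this
    · obtain ⟨a, ha, hmin⟩ := hK.exists_isMinOn h0 (f := fun x => dist (f x) y) (by fun_prop)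
      have hpos : 0 < dist (f a) y := by
        rw [dist_pos]
        intro h
        exact ha.2 (hfib a h)
      refine ⟨dist (f a) y / 2, by positivity, fun x hx hxb => ?_⟩
      by_contra h
      have h1 : dist (f a) y ≤ dist (f x) y := hmin (⟨hx, h⟩ : x ∈ A \ (O ∪ O'))
      rw [mem_closedBall] at hxb
      linarith
  have hRp := star_conn hF hx hw he hye hρ
  set B : Set M := A ∩ f ⁻¹' (closedBall y ρ) with hB
  have hBc : IsCompact B := (hAcl.inter (isClosed_closedBall.preimage hf)).isCompact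
  have ht : IsClosed (f '' (B \ O')) := ((hBc.diff hO2).image hf).isClosed
  have ht' : IsClosed (f '' (B \ O)) := ((hBc.diff hO1).image hf).isClosed
  have hcl := isPreconnected_closed_iff.mp hRp _ _ ht ht' (by
    rintro z ⟨⟨⟨hzF, hzw⟩, hzb⟩, hzy⟩
    obtain ⟨x, rfl⟩ := hr hzF
    have hxB : x ∈ B := ⟨⟨hzF, hzw⟩, ball_subset_closedBall hzb⟩
    rcases hcov x hxB.1 hxB.2 with h1 | h1
    · exact Or.inl ⟨x, ⟨hxB, Set.disjoint_left.mp hOO h1⟩, rfl⟩
    · exact Or.inr ⟨x, ⟨hxB, Set.disjoint_right.mp hOO h1⟩, rfl⟩)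
  have hρ2 : ∀ x, f x ∈ closedBall y (ρ / 2) → f x ∈ closedBall y ρ :=
    fun x hx => closedBall_subset_closedBall (by linarith) hx
  have hx0A : x0 ∈ A := ⟨hx, le_rfl⟩
  have hy0A : y0 ∈ A := ⟨hgg ▸ hx, by rw [← hgg]⟩
  by_cases hc1 : ((({z | z ∈ F ∧ ⟪y - p, y⟫_ℝ ≤ ⟪y - p, z⟫_ℝ} ∩ ball y ρ) \ {y}) ∩
      (f '' (B \ O'))).Nonempty
  · by_cases hc2 : ((({z | z ∈ F ∧ ⟪y - p, y⟫_ℝ ≤ ⟪y - p, z⟫_ℝ} ∩ ball y ρ) \ {y}) ∩
      (f '' (B \ O))).Nonempty
    · obtain ⟨z, hz, ⟨a, ha, hza⟩, ⟨b, hb, hzb⟩⟩ := hcl hc1 hc2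
      have hab : a = b := by
        refine huniq2 a b (hza.trans hzb.symm) ha.1.1.1 ha.1.1.2 ?_
        rw [hza]; exact hz.2
      subst hab
      rcases hcov a ha.1.1 ha.1.2 with h1 | h1
      · exact hb.2 h1
      · exact ha.2 h1
    · refine side hf hApre hO1 hO2 hOO hρ (fun x hx hxb => hcov x hx (hρ2 x hxb)) hx0A hxO' hy0A hyO'
        hgg.symm ?_
      intro x hxA hxO2 hxb
      by_contra hne
      exact hc2 ⟨f x, ⟨⟨hxA, hxb⟩, hne⟩, x,
        ⟨⟨hxA, ball_subset_closedBall hxb⟩, Set.disjoint_right.mp hOO hxO2⟩, rfl⟩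
  · refine side hf hApre hO2 hO1 hOO.symm hρ (fun x hx hxb => (hcov x hx (hρ2 x hxb)).symm) hy0A hyO'
      hx0A hxO' rfl ?_
    intro x hxA hxO2 hxb
    by_contra hne
    exact hc1 ⟨f x, ⟨⟨hxA, hxb⟩, hne⟩, x,
      ⟨⟨hxA, ball_subset_closedBall hxb⟩, Set.disjoint_left.mp hOO hxO2⟩, rfl⟩

end abs

open Pool.Agent.Helper775.Surf Pool.Agent.Helper775.Clo Pool.Agent.Y217.PB

universe u

theorem injT : JInjT.{u} := by
  intro M _ _ _ _ _ _ N f S p q r _ hex hr hb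
  obtain ⟨n, m, hn, hm⟩ := hex
  have hpT : p ∈ convexHull ℝ ({p, q, r} : Set (EuclideanSpace ℝ (Fin N))) :=
    subset_convexHull ℝ _ (by simp)
  have hFc : Fc (Hul f) (convexHull ℝ ({p, q, r} : Set (EuclideanSpace ℝ (Fin N)))) := by
    have h1 : p ∈ {x | x ∈ Hul f ∧ ⟪n, x⟫_ℝ = m} := by rw [hm]; exact hpT
    have h2 := Fc.step (K := Hul f) (Hul f) n m Fc.top hn ⟨p, h1.1, h1.2⟩
    rwa [hm] at h2
  have hcl : IsClosed (convexHull ℝ ({p, q, r} : Set (EuclideanSpace ℝ (Fin N)))) :=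
    (fc_compact (hul_compact S.cont) hFc).isClosed
  refine inj_over S.cont S.loc hcl (convex_convexHull ℝ _) hr
    (fun w b => fc_conn S.cont S.conn hFc w b) (p := p) ?_
  intro x y hxy hfxy hx
  have hns : f x ∉ segment ℝ p q ∪ segment ℝ q r ∪ segment ℝ r p := by
    intro h
    exact hxy (hb h (by rw [mem_ofPred_eq, ← hfxy]; exact h) hfxy)
  have hxp : f x ≠ p := by
    intro h
    apply hns
    rw [h]
    exact Or.inl (Or.inl (left_mem_segment ℝ p q))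
  refine ⟨hxp, ?_⟩
  have h1 : f x ∈ convexJoin ℝ {p} (segment ℝ q r) := by
    rw [← convexHull_pair, ← convexHull_insert (by simp)]
    exact hx
  rw [mem_convexJoin] at h1
  obtain ⟨p', hp', z, hz, a, b, ha, hb', hab, he⟩ := h1
  rw [mem_singleton_iff] at hp'
  subst hp'
  have hzT : z ∈ convexHull ℝ ({p', q, r} : Set (EuclideanSpace ℝ (Fin N))) := by
    have h2 : segment ℝ q r ⊆ convexHull ℝ ({p', q, r} : Set (EuclideanSpace ℝ (Fin N))) := by
      rw [← convexHull_pair]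
      exact convexHull_mono (by intro t ht; exact Or.inr ht)
    exact h2 hz
  have hb0 : b ≠ 0 := by
    intro h
    apply hxp
    rw [← he, h, zero_smul, add_zero, show a = 1 by linarith, one_smul]
  have hbp : 0 < b := lt_of_le_of_ne hb' (Ne.symm hb0)
  have ha0 : a ≠ 0 := by
    intro h
    apply hns
    rw [← he, h, zero_smul, zero_add, show b = 1 by linarith, one_smul]
    exact Or.inl (Or.inr hz)
  have hap : 0 < a := lt_of_le_of_ne ha (Ne.symm ha0)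
  refine ⟨a / b, by positivity, ?_⟩
  have h3 : f x + (a / b) • (f x - p') = z := by
    rw [← he]
    have ha1 : a = 1 - b := by linarith
    subst ha1
    have h4 : ((1 - b) • p' + b • z + ((1 - b) / b) • ((1 - b) • p' + b • z - p')) =
        ((1 - b) + ((1 - b) / b) * ((1 - b) - 1)) • p' + (b + ((1 - b) / b) * b) • z := by
      module
    rw [h4]
    have h5 : (1 - b) + ((1 - b) / b) * ((1 - b) - 1) = 0 := by field_simp; ring
    have h6 : b + ((1 - b) / b) * b = 1 := by field_simp; ring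
    rw [h5, h6, zero_smul, zero_add, one_smul]
  rw [h3]
  exact hzT

end Pool.Agent.Y563.PB
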