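import Pool.Agent.Y217.PB.Stm

/-! Job PB-R3 of project PB: `JSurT`. -/

set_option autoImplicit false

namespace Pool.Agent.Y563.PB

open Set Topology Metric
open scoped InnerProductSpace

section geo

variable {E : Type*} [NormedAddCommGroup E] [InnerProductSpace ℝ E]

theorem coords3 {a : Fin 3 → E} (ha : AffineIndependent ℝ a) :
    ∃ L : Fin 3 → (E →ᵃ[ℝ] ℝ), ∀ i j, L i (a j) = if i = j then 1 else 0 := by
  classical
  obtain ⟨t, hst, hti, htop⟩ := exists_subset_affineIndependent_affineSpan_eq_top ha.range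
  let b : AffineBasis t ℝ E := ⟨((↑) : t → E), hti, by rw [Subtype.range_coe]; exact htop⟩
  refine ⟨fun i => b.coord ⟨a i, hst (mem_range_self i)⟩, fun i j => ?_⟩
  have h1 := b.coord_apply ⟨a i, hst (mem_range_self i)⟩ ⟨a j, hst (mem_range_self j)⟩
  have h2 : (b ⟨a j, hst (mem_range_self j)⟩ : E) = a j := rfl
  rw [h2] at h1
  rw [h1]
  congr 1
  rw [Subtype.mk.injEq]
  exact propext ha.injective.eq_iff

theorem tri_coords {a1 a2 a3 : E} {L : Fin 3 → (E →ᵃ[ℝ] ℝ)}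
    (hL : ∀ i j, L i (![a1, a2, a3] j) = if i = j then 1 else 0) {z : E}
    (hz : z ∈ convexHull ℝ ({a1, a2, a3} : Set E)) :
    z = L 0 z • a1 + L 1 z • a2 + L 2 z • a3 ∧ 0 ≤ L 0 z ∧ 0 ≤ L 1 z ∧ 0 ≤ L 2 z ∧
      L 0 z + L 1 z + L 2 z = 1 := by
  have h1 : z ∈ convexJoin ℝ {a1} (segment ℝ a2 a3) := by
    rw [← convexHull_pair, ← convexHull_insert (by simp)]
    exact hz
  rw [mem_convexJoin] at h1
  obtain ⟨p', hp', w, ⟨c, d, hc, hd, hcd, rfl⟩, s, t, hs, ht, hst, rfl⟩ := h1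
  rw [mem_singleton_iff] at hp'
  subst hp'
  have hv : ∀ i, L i (s • p' + t • (c • a2 + d • a3)) =
      s * (if i = 0 then 1 else 0) + t * (c * (if i = 1 then 1 else 0) +
        d * (if i = 2 then 1 else 0)) := by
    intro i
    rw [Convex.combo_affine_apply hst, Convex.combo_affine_apply hcd]
    have e0 := hL i 0
    have e1 := hL i 1
    have e2 := hL i 2
    simp only [Matrix.cons_val_zero, Matrix.cons_val_one, Matrix.cons_val] at e0 e1 e2
    rw [e0, e1, e2]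
    simp only [smul_eq_mul]
  have v0 : L 0 (s • p' + t • (c • a2 + d • a3)) = s := by rw [hv]; simp
  have v1 : L 1 (s • p' + t • (c • a2 + d • a3)) = t * c := by rw [hv]; simp
  have v2 : L 2 (s • p' + t • (c • a2 + d • a3)) = t * d := by rw [hv]; simp
  rw [v0, v1, v2]
  refine ⟨by module, hs, by positivity, by positivity, ?_⟩
  rw [add_assoc, ← mul_add, hcd, mul_one, hst]

theorem tri_funs [FiniteDimensional ℝ E] {a1 a2 a3 q0 : E}
    (hai : AffineIndependent ℝ ![a1, a2, a3])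
    (hq : q0 ∈ convexHull ℝ ({a1, a2, a3} : Set E))
    (h12 : q0 ∉ segment ℝ a1 a2) (h23 : q0 ∉ segment ℝ a2 a3) (h31 : q0 ∉ segment ℝ a3 a1) :
    ∃ h l : E → ℝ, Continuous h ∧ Continuous l ∧
      (∀ z ∈ convexHull ℝ ({a1, a2, a3} : Set E), h z = 0 → l z = 0 → z = q0) ∧
      (∀ z ∈ segment ℝ a1 a2, 0 < l z) ∧ 0 < h a1 ∧ h a2 < 0 ∧
      (∀ z ∈ segment ℝ a2 a3, h z ≤ 0 ∧ (h z = 0 → l z < 0)) ∧
      (∀ z ∈ segment ℝ a3 a1, 0 ≤ h z ∧ (h z = 0 → l z < 0)) := by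
  obtain ⟨L, hL⟩ := coords3 hai
  obtain ⟨hq1, hqa, hqb, hqc, hqs⟩ := tri_coords hL hq
  have hLc : ∀ i, Continuous (L i) := fun i => (L i).continuous_of_finiteDimensional
  have e : ∀ i j, L i (![a1, a2, a3] j) = if i = j then 1 else 0 := hL
  have e00 : L 0 a1 = 1 := by simpa using e 0 0
  have e01 : L 0 a2 = 0 := by simpa using e 0 1
  have e02 : L 0 a3 = 0 := by simpa using e 0 2
  have e10 : L 1 a1 = 0 := by simpa using e 1 0
  have e11 : L 1 a2 = 1 := by simpa using e 1 1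
  have e12 : L 1 a3 = 0 := by simpa using e 1 2
  have e20 : L 2 a1 = 0 := by simpa using e 2 0
  have e21 : L 2 a2 = 0 := by simpa using e 2 1
  have e22 : L 2 a3 = 1 := by simpa using e 2 2
  have p0 : 0 < L 0 q0 := by
    refine lt_of_le_of_ne hqa fun h0 => h23 ?_
    refine ⟨L 1 q0, L 2 q0, hqb, hqc, by linarith, ?_⟩
    rw [← h0] at hq1
    rw [zero_smul, zero_add] at hq1
    exact hq1.symm
  have p1 : 0 < L 1 q0 := by
    refine lt_of_le_of_ne hqb fun h0 => h31 ?_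
    refine ⟨L 2 q0, L 0 q0, hqc, hqa, by linarith, ?_⟩
    rw [← h0] at hq1
    rw [zero_smul, add_zero] at hq1
    rw [add_comm]
    exact hq1.symm
  have p2 : 0 < L 2 q0 := by
    refine lt_of_le_of_ne hqc fun h0 => h12 ?_
    refine ⟨L 0 q0, L 1 q0, hqa, hqb, by linarith, ?_⟩
    rw [← h0] at hq1
    rw [zero_smul, add_zero] at hq1
    exact hq1.symm
  refine ⟨fun z => L 1 q0 * L 0 z - L 0 q0 * L 1 z, fun z => L 2 q0 - L 2 z,
    ((continuous_const.mul (hLc 0)).sub (continuous_const.mul (hLc 1))),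
    continuous_const.sub (hLc 2), ?_, ?_, ?_, ?_, ?_, ?_⟩
  · intro z hz h1 h2
    obtain ⟨hz1, hza, hzb, hzc, hzs⟩ := tri_coords hL hz
    have h2' : L 2 z = L 2 q0 := by linarith
    have h3 : L 0 z = L 0 q0 := by
      have h4 : L 1 q0 * L 0 z = L 0 q0 * L 1 z := by linarith
      have h5 : L 1 z = (L 0 q0 + L 1 q0) - L 0 z := by linarith
      rw [h5] at h4
      have h6 : (L 0 q0 + L 1 q0) * (L 0 z - L 0 q0) = 0 := by linarith
      rcases mul_eq_zero.mp h6 with h7 | h7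
      · linarith
      · linarith
    have h4 : L 1 z = L 1 q0 := by linarith
    rw [hz1, h2', h3, h4]
    exact hq1.symm
  · rintro z ⟨s, t, hs, ht, hst, rfl⟩
    simp only
    rw [Convex.combo_affine_apply hst, e20, e21]
    simp only [smul_eq_mul, mul_zero, add_zero, sub_zero]
    exact p2
  · simp only
    rw [e00, e10]
    linarith
  · simp only
    rw [e01, e11]
    linarith
  · rintro z ⟨s, t, hs, ht, hst, rfl⟩
    simp only
    rw [Convex.combo_affine_apply hst, Convex.combo_affine_apply hst,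
      Convex.combo_affine_apply hst, e01, e02, e11, e12, e21, e22]
    simp only [smul_eq_mul, mul_zero, add_zero, mul_one, zero_add, zero_sub]
    constructor
    · have := mul_nonneg p0.le hs
      linarith
    · intro h0
      have h1 : s = 0 := by
        have : L 0 q0 * s = 0 := by linarith
        rcases mul_eq_zero.mp this with h | h
        · linarith
        · exact h
      have : t = 1 := by linarith
      rw [this]
      linarith
  · rintro z ⟨s, t, hs, ht, hst, rfl⟩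
    simp only
    rw [Convex.combo_affine_apply hst, Convex.combo_affine_apply hst,
      Convex.combo_affine_apply hst, e00, e02, e10, e12, e20, e22]
    simp only [smul_eq_mul, mul_zero, add_zero, mul_one, zero_add, sub_zero]
    constructor
    · exact mul_nonneg p1.le ht
    · intro h0
      have h1 : t = 0 := by
        rcases mul_eq_zero.mp h0 with h | h
        · linarith
        · exact h
      have : s = 1 := by linarith
      rw [this]
      linarith

end geo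

open Pool.Agent.Helper775.Surf Pool.Agent.Helper775.Clo Pool.Agent.Y217.PB

universe u

section cls

variable {M : Type u} [TopologicalSpace M]

open Classical in
/-- the sign of a function -/
noncomputable def rr (h : M → ℝ) (x : M) : ZMod 2 := if 0 < h x then 1 else 0

open Classical in
/-- the winding class -/
noncomputable def uu (h l : M → ℝ) (x y : M) : ZMod 2 :=
  if 0 < l x ∧ 0 < l y then rr h x + rr h y else 0

theorem uu_h {h l : M → ℝ} (hh : Continuous h) {x : M} (hx : h x ≠ 0) :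
    ∃ W ∈ 𝓝 x, ∀ a ∈ W, ∀ b ∈ W, uu h l a b = 0 := by
  rcases lt_or_gt_of_ne hx with h0 | h0
  · refine ⟨{a | h a < 0}, (isOpen_lt hh continuous_const).mem_nhds h0, fun a ha b hb => ?_⟩
    have ha : ¬ (0 < h a) := not_lt.mpr (le_of_lt ha)
    have hb : ¬ (0 < h b) := not_lt.mpr (le_of_lt hb)
    simp [uu, rr, ha, hb]
  · refine ⟨{a | 0 < h a}, (isOpen_lt continuous_const hh).mem_nhds h0, fun a ha b hb => ?_⟩
    have ha : 0 < h a := ha
    have hb : 0 < h b := hb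
    have e : (1 : ZMod 2) + 1 = 0 := by decide
    simp [uu, rr, ha, hb, e]

theorem uu_neg {h l : M → ℝ} (hl : Continuous l) {x : M} (hx : l x < 0) :
    ∃ W ∈ 𝓝 x, ∀ a ∈ W, ∀ b ∈ W, uu h l a b = 0 := by
  refine ⟨{a | l a < 0}, (isOpen_lt hl continuous_const).mem_nhds hx, fun a ha b _ => ?_⟩
  have ha : ¬ (0 < l a) := not_lt.mpr (le_of_lt ha)
  simp [uu, ha]

theorem uu_pos {h l : M → ℝ} (hl : Continuous l) {x : M} (hx : 0 < l x) :
    ∃ W ∈ 𝓝 x, ∀ a ∈ W, ∀ b ∈ W, uu h l a b = rr h a + rr h b := by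
  refine ⟨{a | 0 < l a}, (isOpen_lt continuous_const hl).mem_nhds hx, fun a ha b hb => ?_⟩
  have ha : 0 < l a := ha
  have hb : 0 < l b := hb
  simp [uu, ha, hb]

theorem uu_coc {h l : M → ℝ} (hh : Continuous h) (hl : Continuous l) {K : Set M}
    (hK : ∀ x ∈ K, h x = 0 → l x ≠ 0) : Coc K (uu h l) := by
  intro x hx
  by_cases h0 : h x = 0
  · rcases lt_or_gt_of_ne (hK x hx h0) with h1 | h1
    · obtain ⟨W, hW, hW2⟩ := uu_neg (h := h) hl h1
      exact ⟨W, hW, fun a ha b hb c hc => by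
        rw [hW2 a ha b hb, hW2 b hb c hc, hW2 a ha c hc, add_zero]⟩
    · obtain ⟨W, hW, hW2⟩ := uu_pos (h := h) hl h1
      exact ⟨W, hW, fun a ha b hb c hc => by
        rw [hW2 a ha b hb, hW2 b hb c hc, hW2 a ha c hc]
        generalize rr h a = p
        generalize rr h b = q
        generalize rr h c = r
        revert p q r
        decide⟩
  · obtain ⟨W, hW, hW2⟩ := uu_h (l := l) hh h0
    exact ⟨W, hW, fun a ha b hb c hc => by
      rw [hW2 a ha b hb, hW2 b hb c hc, hW2 a ha c hc, add_zero]⟩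

theorem triv_pt {t : M → M → ZMod 2} (ht : Coc univ t) (a : M) :
    Triv {a} t (fun b => t b a) := by
  intro x hx
  rw [mem_singleton_iff] at hx
  subst hx
  obtain ⟨W, hW, h⟩ := ht x trivial
  have hxW := mem_of_mem_nhds hW
  refine ⟨W, hW, fun b hb c hc => ?_⟩
  have h1 := h b hb x hxW c hc
  have h2 := h c hc x hxW c hc
  have h3 := h c hc c hc c hc
  show t b c = t b x + t c x
  rw [← h1]
  generalize t b x = p1 at *
  generalize t x c = p2 at *
  generalize t c x = p3 at *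
  generalize t c c = p4 at *
  clear h1 h
  revert p1 p2 p3 p4
  decide

theorem add_pts (hG : JGlue.{u}) [CompactSpace M] [T2Space M] {X : Set M} (hX : IsClosed X)
    {t : M → M → ZMod 2} {ρ : M → ZMod 2} (h : Triv X t ρ) (ht : Coc univ t) {P : Set M}
    (hP : P.Finite) : ∃ σ : M → ZMod 2, Triv (X ∪ P) t σ ∧ ∀ x ∈ X, σ x = ρ x := by
  induction P, hP using Set.Finite.induction_on with
  | empty => exact ⟨ρ, by rw [union_empty]; exact h, fun x _ => rfl⟩
  | @insert a P ha hP ih =>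
    obtain ⟨σ, hσ, hσρ⟩ := ih
    by_cases haX : a ∈ X ∪ P
    · refine ⟨σ, ?_, hσρ⟩
      have e : X ∪ insert a P = X ∪ P := by
        rw [union_insert, insert_eq_of_mem haX]
      rw [e]
      exact hσ
    · obtain ⟨τ, hτ, hτ1, -⟩ := hG M (X ∪ P) {a} t σ (fun b => t b a)
        (hX.union hP.isClosed) isClosed_singleton hσ (triv_pt ht a) (by
          rintro x ⟨hx1, hx2⟩
          rw [mem_singleton_iff] at hx2
          subst hx2
          exact absurd hx1 haX)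
      refine ⟨τ, ?_, fun x hx => ?_⟩
      · have e : X ∪ insert a P = (X ∪ P) ∪ {a} := by
          rw [union_insert, union_singleton]
        rw [e]
        exact hτ
      · rw [hτ1 x (Or.inl hx)]
        exact hσρ x hx

theorem z2a : ∀ a b c d : ZMod 2, a ≠ b → c ≠ d → a + c = b + d := by
  decide

theorem z2b : ∀ s s' r ρ : ZMod 2, s + ρ = (s' + (r + ρ)) + (s + s' + r) := by
  decide

end cls

theorem sur (hP : JPair.{u}) (hG : JGlue.{u}) (_hU : JUnion.{u}) (_hA : JArc.{u})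
    (hS : JSep.{u}) : JSurT.{u} := by
  intro M _ _ _ _ _ _ N f S hfin hEf Γ hΓ C hC i₁ i₂ i₃ k₁ k₂ k₃ h12 h23 h31 hk1 hk2 hk3 hCadj hCk
    hC' hai hex q0 hq0
  obtain ⟨C', hC'm, hC'ne, hC'k⟩ := hC'
  obtain ⟨n, m, hn, hm⟩ := hex
  by_contra hq0r
  have hfin' : Finite (extremePoints ℝ (Hul f)) := hfin
  have hseg : ∀ (k : EdgeT f) (i j : extremePoints ℝ (Hul f)),
      ({Γ.i0 k, Γ.i1 k} : Set (extremePoints ℝ (Hul f))) = {i, j} →
      k.1 = segment ℝ i.1 j.1 := by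
    intro k i j h
    rw [hΓ.seg k]
    rcases Set.pair_eq_pair_iff.mp h with ⟨e1, e2⟩ | ⟨e1, e2⟩
    · rw [e1, e2]
    · rw [e1, e2, segment_symm]
  have hs1 := hseg k₁ i₁ i₂ hk1
  have hs2 := hseg k₂ i₂ i₃ hk2
  have hs3 := hseg k₃ i₃ i₁ hk3
  have hno : ∀ k : EdgeT f, q0 ∉ k.1 := by
    intro k hk
    rw [hΓ.seg k] at hk
    obtain ⟨y, hy⟩ := edge_surj S.cont S.conn (hΓ.edge k) hk
    exact hq0r ⟨y, hy⟩
  obtain ⟨h, l, hhc, hlc, hz, hl12, hh1, hh2, hh23, hh31⟩ := tri_funs hai hq0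
    (by rw [← hs1]; exact hno k₁) (by rw [← hs2]; exact hno k₂) (by rw [← hs3]; exact hno k₃)
  -- the face
  have hT1 : ∀ x, m ≤ ⟪n, f x⟫_ℝ → f x ∈ convexHull ℝ ({i₁.1, i₂.1, i₃.1} : Set _) := by
    intro x hx
    rw [← hm]
    have hxH : f x ∈ Hul f := subset_convexHull ℝ _ (mem_range_self x)
    exact ⟨hxH, le_antisymm (hn _ hxH) hx⟩
  have hT2 : ∀ x, f x ∈ convexHull ℝ ({i₁.1, i₂.1, i₃.1} : Set _) → m ≤ ⟪n, f x⟫_ℝ := by
    intro x hx
    rw [← hm] at hx
    exact hx.2.ge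
  have hsT : ∀ (a b : EuclideanSpace ℝ (Fin N)), a ∈ ({i₁.1, i₂.1, i₃.1} : Set _) →
      b ∈ ({i₁.1, i₂.1, i₃.1} : Set _) →
      segment ℝ a b ⊆ convexHull ℝ ({i₁.1, i₂.1, i₃.1} : Set _) := by
    intro a b ha hb
    exact (convex_convexHull ℝ _).segment_subset (subset_convexHull ℝ _ ha)
      (subset_convexHull ℝ _ hb)
  have hA1 : ∀ x ∈ Γ.A k₁, f x ∈ segment ℝ i₁.1 i₂.1 := by
    intro x hx
    rw [hΓ.hA k₁, hs1] at hx
    exact hx
  have hA2 : ∀ x ∈ Γ.A k₂, f x ∈ segment ℝ i₂.1 i₃.1 := by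
    intro x hx
    rw [hΓ.hA k₂, hs2] at hx
    exact hx
  have hA3 : ∀ x ∈ Γ.A k₃, f x ∈ segment ℝ i₃.1 i₁.1 := by
    intro x hx
    rw [hΓ.hA k₃, hs3] at hx
    exact hx
  have hK1 : Γ.A k₁ ⊆ {x | m ≤ ⟪n, f x⟫_ℝ} := fun x hx =>
    hT2 x (hsT _ _ (by simp) (by simp) (hA1 x hx))
  have hK2 : Γ.A k₂ ⊆ {x | m ≤ ⟪n, f x⟫_ℝ} := fun x hx =>
    hT2 x (hsT _ _ (by simp) (by simp) (hA2 x hx))
  have hK3 : Γ.A k₃ ⊆ {x | m ≤ ⟪n, f x⟫_ℝ} := fun x hx =>
    hT2 x (hsT _ _ (by simp) (by simp) (hA3 x hx))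
  -- the winding class
  have hHc : Continuous (fun x => h (f x)) := hhc.comp S.cont
  have hLc : Continuous (fun x => l (f x)) := hlc.comp S.cont
  have hcoc : Coc {x | m ≤ ⟪n, f x⟫_ℝ} (uu (fun x => h (f x)) (fun x => l (f x))) := by
    refine uu_coc hHc hLc ?_
    intro x hx h0 h1
    exact hq0r ⟨x, hz (f x) (hT1 x hx) h0 h1⟩
  obtain ⟨u, huc, ρ, hρ⟩ := S.sur n m _ hcoc
  have hu0_23 : Triv (Γ.A k₂ ∪ Γ.A k₃) (uu (fun x => h (f x)) (fun x => l (f x))) 0 := by
    intro x hx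
    have key : ∃ W ∈ 𝓝 x, ∀ a ∈ W, ∀ b ∈ W,
        uu (fun x => h (f x)) (fun x => l (f x)) a b = 0 := by
      by_cases h0 : h (f x) = 0
      · refine uu_neg hLc ?_
        rcases hx with hx | hx
        · exact (hh23 _ (hA2 x hx)).2 h0
        · exact (hh31 _ (hA3 x hx)).2 h0
      · exact uu_h hHc h0
    obtain ⟨W, hW, hW2⟩ := key
    exact ⟨W, hW, fun a ha b hb => by rw [hW2 a ha b hb]; simp⟩
  have hu0_1 : Triv (Γ.A k₁) (uu (fun x => h (f x)) (fun x => l (f x)))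
      (rr (fun x => h (f x))) := by
    intro x hx
    exact uu_pos hLc (hl12 _ (hA1 x hx))
  have ecan : (uu (fun x => h (f x)) (fun x => l (f x))) +
      ((uu (fun x => h (f x)) (fun x => l (f x))) + u) = u := by
    rw [← add_assoc, add_self_co, zero_add]
  have hu_23 : Triv (Γ.A k₂ ∪ Γ.A k₃) u ρ := by
    have h1 := hu0_23.add (hρ.mono (union_subset hK2 hK3))
    rw [ecan, zero_add] at h1
    exact h1
  have hu_1 : Triv (Γ.A k₁) u (rr (fun x => h (f x)) + ρ) := by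
    have h1 := hu0_1.add (hρ.mono hK1)
    rw [ecan] at h1
    exact h1
  -- the vertices
  have hPfin : (⋃ i, Γ.Z i).Finite := by
    refine Set.finite_iUnion fun i => ?_
    obtain ⟨x, hx, hx2⟩ := ext_unique S.cont S.loc S.conn i.2
    refine (Set.finite_singleton x).subset ?_
    intro y hy
    rw [hΓ.hZ i] at hy
    exact hx2 y hy
  have hAcl : ∀ k, IsClosed (Γ.A k) := fun k => (hΓ.good.arc k).closed
  obtain ⟨σ, hσ, hσρ⟩ := add_pts hG ((hAcl k₂).union (hAcl k₃)) hu_23 huc hPfin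
  -- the points
  obtain ⟨x, hx, hCx⟩ := id hC
  obtain ⟨x', hx', hCx'⟩ := id hC'm
  have hxC : x ∈ C := by rw [hCx]; exact mem_connectedComponentIn hx
  have hxC' : x' ∈ C' := by rw [hCx']; exact mem_connectedComponentIn hx'
  obtain ⟨v, hvc, hvx, hvx', s, s', hs, hs', hjump⟩ := hP M N f S _ _ Γ hΓ.good k₁ C hC C' hC'm
    hC'ne.symm hCk hC'k x hxC x' hxC'
  have hk21 : k₂ ≠ k₁ := by
    rintro rfl
    have h1 : i₁ ∈ ({i₂, i₃} : Set (extremePoints ℝ (Hul f))) := by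
      rw [← hk2, hk1]; simp
    rcases h1 with h1 | h1
    · exact h12 h1
    · exact h31 h1.symm
  have hk31 : k₃ ≠ k₁ := by
    rintro rfl
    have h1 : i₂ ∈ ({i₃, i₁} : Set (extremePoints ℝ (Hul f))) := by
      rw [← hk3, hk1]; simp
    rcases h1 with h1 | h1
    · exact h23 h1
    · exact h12 h1.symm
  have hsub : (Γ.A k₂ ∪ Γ.A k₃) ∪ (⋃ i, Γ.Z i) ⊆ Γ.off k₁ := by
    rintro y ((hy | hy) | hy)
    · exact Or.inr (mem_biUnion (show k₂ ∈ {l | l ≠ k₁} from hk21) hy)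
    · exact Or.inr (mem_biUnion (show k₃ ∈ {l | l ≠ k₁} from hk31) hy)
    · exact Or.inl hy
  have ht1 := (hs.mono hsub).add hσ
  have ht2 := (hs'.add hu_1).add_const
    (s (Γ.p0 k₁) + s' (Γ.p0 k₁) + rr (fun x => h (f x)) (Γ.p0 k₁))
  -- the endpoints
  have hf0 := hΓ.h0 k₁
  have hf1 := hΓ.h1 k₁
  have hrr : rr (fun x => h (f x)) (Γ.p0 k₁) ≠ rr (fun x => h (f x)) (Γ.p1 k₁) := by
    have e1 : ∀ y, f y = i₁.1 → rr (fun x => h (f x)) y = 1 := by
      intro y hy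
      have : 0 < h (f y) := by rw [hy]; exact hh1
      simp [rr, this]
    have e2 : ∀ y, f y = i₂.1 → rr (fun x => h (f x)) y = 0 := by
      intro y hy
      have : ¬ (0 < h (f y)) := by rw [hy]; exact not_lt.mpr hh2.le
      simp [rr, this]
    rcases Set.pair_eq_pair_iff.mp hk1 with ⟨g1, g2⟩ | ⟨g1, g2⟩
    · rw [e1 _ (by rw [hf0, g1]), e2 _ (by rw [hf1, g2])]
      decide
    · rw [e2 _ (by rw [hf0, g1]), e1 _ (by rw [hf1, g2])]
      decide
  have hin : ∀ y, (f y = i₁.1 ∨ f y = i₂.1) → y ∈ Γ.A k₂ ∪ Γ.A k₃ := by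
    rintro y (hy | hy)
    · right
      rw [hΓ.hA k₃, hs3]
      show f y ∈ segment ℝ i₃.1 i₁.1
      rw [hy]
      exact right_mem_segment ℝ _ _
    · left
      rw [hΓ.hA k₂, hs2]
      show f y ∈ segment ℝ i₂.1 i₃.1
      rw [hy]
      exact left_mem_segment ℝ _ _
  have hp0 : Γ.p0 k₁ ∈ Γ.A k₂ ∪ Γ.A k₃ := by
    apply hin
    rcases Set.pair_eq_pair_iff.mp hk1 with ⟨g1, g2⟩ | ⟨g1, g2⟩
    · left; rw [hf0, g1]
    · right; rw [hf0, g1]
  have hp1 : Γ.p1 k₁ ∈ Γ.A k₂ ∪ Γ.A k₃ := by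
    apply hin
    rcases Set.pair_eq_pair_iff.mp hk1 with ⟨g1, g2⟩ | ⟨g1, g2⟩
    · right; rw [hf1, g2]
    · left; rw [hf1, g2]
  have hend : ∀ y ∈ ((Γ.A k₂ ∪ Γ.A k₃) ∪ (⋃ i, Γ.Z i)) ∩ Γ.A k₁,
      y = Γ.p0 k₁ ∨ y = Γ.p1 k₁ := by
    rintro y ⟨hy, hy1⟩
    have key : ∃ i, y ∈ Γ.Z i := by
      rcases hy with (hy | hy) | hy
      · exact hΓ.good.ee k₂ k₁ y hk21 hy hy1
      · exact hΓ.good.ee k₃ k₁ y hk31 hy hy1
      · exact mem_iUnion.mp hy
    obtain ⟨i, hi⟩ := key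
    exact hΓ.good.inter k₁ i y hy1 hi
  obtain ⟨τ, hτ, -, -⟩ := hG M _ _ (v + u) _ _
    (((hAcl k₂).union (hAcl k₃)).union hPfin.isClosed) (hAcl k₁) ht1 ht2 (by
      intro y hy
      show s y + σ y = (s' y + (rr (fun x => h (f x)) y + ρ y)) +
        (s (Γ.p0 k₁) + s' (Γ.p0 k₁) + rr (fun x => h (f x)) (Γ.p0 k₁))
      rcases hend y hy with rfl | rfl
      · rw [hσρ _ hp0]
        exact z2b _ _ _ _
      · rw [hσρ _ hp1, z2a _ _ _ _ hjump hrr]
        exact z2b _ _ _ _)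
  -- the separation
  set Z : Set M := ((Γ.A k₂ ∪ Γ.A k₃) ∪ (⋃ i, Γ.Z i)) ∪ Γ.A k₁ with hZ
  have hZcl : IsClosed Z := (((hAcl k₂).union (hAcl k₃)).union hPfin.isClosed).union (hAcl k₁)
  have hZpts : Z ⊆ Γ.pts := by
    rintro y (((hy | hy) | hy) | hy)
    · exact Or.inr (mem_iUnion.mpr ⟨k₂, hy⟩)
    · exact Or.inr (mem_iUnion.mpr ⟨k₃, hy⟩)
    · exact Or.inl hy
    · exact Or.inr (mem_iUnion.mpr ⟨k₁, hy⟩)
  have hxZ : x ∉ Z := fun h => hx (hZpts h)
  have hxZ' : x' ∉ Z := fun h => hx' (hZpts h)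
  have hCC : ∀ y, y ∈ C → y ∈ C' → False := by
    intro y hy hy'
    apply hC'ne
    rw [hCx] at hy ⊢
    rw [hCx'] at hy' ⊢
    rw [connectedComponentIn_eq hy, connectedComponentIn_eq hy']
  have hxx : x ≠ x' := by
    rintro rfl
    exact hCC x hxC hxC'
  have hcomp := hS M N f S Z x x' v u hZcl hxZ hxZ' hxx hvc hvx huc ⟨τ, hτ⟩
  -- the graph is closed
  have hptscl : IsClosed Γ.pts := by
    refine hPfin.isClosed.union ?_
    exact isClosed_iUnion_of_finite hAcl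
  have hCopen : IsOpen C := by
    rw [hCx]
    exact hptscl.isOpen_compl.connectedComponentIn
  have hclos : closure C ∩ Zᶜ ⊆ C := by
    rintro y ⟨hy, hyZ⟩
    by_cases hyp : y ∈ Γ.pts
    · exfalso
      rcases hyp with hyp | hyp
      · exact hyZ (Or.inl (Or.inr hyp))
      · obtain ⟨k, hk⟩ := mem_iUnion.mp hyp
        have hyo : y ∈ Γ.opn k := by
          refine ⟨hk, ?_⟩
          rintro (h1 | h1)
          · apply hyZ
            refine Or.inl (Or.inr (mem_iUnion.mpr ⟨Γ.i0 k, ?_⟩))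
            rw [h1]
            exact hΓ.good.m0 k
          · apply hyZ
            refine Or.inl (Or.inr (mem_iUnion.mpr ⟨Γ.i1 k, ?_⟩))
            have h1 : y = Γ.p1 k := h1
            rw [h1]
            exact hΓ.good.m1 k
        rcases hCadj k ⟨y, hy, hyo⟩ with rfl | rfl | rfl
        · exact hyZ (Or.inr hk)
        · exact hyZ (Or.inl (Or.inl (Or.inl hk)))
        · exact hyZ (Or.inl (Or.inl (Or.inr hk)))
    · have hyo : IsOpen (connectedComponentIn Γ.ptsᶜ y) :=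
        hptscl.isOpen_compl.connectedComponentIn
      rw [mem_closure_iff_nhds] at hy
      obtain ⟨w, hw1, hw2⟩ := hy _ (hyo.mem_nhds (mem_connectedComponentIn hyp))
      rw [hCx] at hw2 ⊢
      rw [connectedComponentIn_eq hw2, ← connectedComponentIn_eq hw1]
      exact mem_connectedComponentIn hyp
  have hsubC : connectedComponentIn Zᶜ x ⊆ C := by
    refine isPreconnected_connectedComponentIn.subset_of_closure_inter_subset hCopen
      ⟨x, mem_connectedComponentIn hxZ, hxC⟩ ?_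
    intro y hy
    exact hclos ⟨hy.1, connectedComponentIn_subset _ _ hy.2⟩
  have hx'in : x' ∈ connectedComponentIn Zᶜ x := by
    rw [hcomp]
    exact mem_connectedComponentIn hxZ'
  exact hCC x' (hsubC hx'in) hxC'

end Pool.Agent.Y563.PB
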